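import Mathlib
import Pool.Agent.TH118.SG.Unip
import Pool.Agent.Y126.JB.Log
import Pool.Agent.Y126.JB.Core2
import Pool.Agent.Y126.MU.Char
import Pool.Agent.Y126.MU.Dich

/-!
# Unipotent elements: the symplectic Lie algebra (even Jordan blocks; one Jordan block)
-/

set_option linter.unusedSectionVars false

namespace Pool.Agent.X292.JB

open Module Finset Function Pool.Agent.TH125.Gal Pool.Agent.TH118.IS Pool.Agent.Y126.JB
  Pool.Agent.Y126.MU Pool.Agent.TH118.SG

section triple

variable {K : Type*} [Field K] [CharZero K] {T : Type*} [AddCommGroup T] [Module K T]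
  [FiniteDimensional K T]

/-- A triple whose nilpotent element has one Jordan block is a principal triple. -/
theorem exists_prin_of {e h f : End K T} (hef : h = ad K e f) (hhe : ad K h e = (2 : K) • e)
    (hhf : ad K h f = (-2 : K) • f) {D : ℕ} (hdim : finrank K T = D + 1)
    (hD : e ^ D ≠ 0) (hD1 : e ^ (D + 1) = 0) : ∃ w : ℕ → T, Prin e h f D w := by
  classical
  -- the highest weight vector
  obtain ⟨u, hu⟩ : ∃ u, (e ^ D) u ≠ 0 := by
    by_contra hcon
    push Not at hcon
    exact hD (LinearMap.ext fun u => hcon u)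
  set v := (e ^ D) u with hv
  have hvK : v ∈ Kj e D := mem_Kj.2 ⟨by rw [hv, ← Module.End.mul_apply, ← pow_succ', hD1]; rfl, u, rfl⟩
  have hhv : h v = (D : K) • v := by
    have h1 := Kj_step hef hhe hvK
    obtain ⟨-, u', hu'⟩ := mem_Kj.1 h1
    rw [hD1, LinearMap.zero_apply] at hu'
    exact (sub_eq_zero.1 hu'.symm)
  have hev : e v = 0 := (mem_Kj.1 hvK).1
  -- the weights of the powers of `f`
  have hef' : ∀ x, e (f x) = f (e x) + h x := by
    intro x
    have h1 := LinearMap.congr_fun hef x
    rw [ad_apply, LinearMap.sub_apply, Module.End.mul_apply, Module.End.mul_apply] at h1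
    rw [h1]; abel
  have hhe' : ∀ x, h (e x) = e (h x) + (2 : K) • e x := by
    intro x
    have h1 := LinearMap.congr_fun hhe x
    rw [ad_apply, LinearMap.sub_apply, Module.End.mul_apply, Module.End.mul_apply,
      LinearMap.smul_apply] at h1
    rw [← h1]; abel
  have hhf' : ∀ x, h (f x) = f (h x) - (2 : K) • f x := by
    intro x
    have h1 := LinearMap.congr_fun hhf x
    rw [ad_apply, LinearMap.sub_apply, Module.End.mul_apply, Module.End.mul_apply,
      LinearMap.smul_apply, neg_smul] at h1
    rw [sub_eq_iff_eq_add] at h1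
    rw [h1]; abel
  have hwt : ∀ i : ℕ, h ((f ^ i) v) = ((D : K) - 2 * i) • (f ^ i) v := by
    intro i
    induction i with
    | zero => simp [hhv]
    | succ i ih =>
      rw [pow_succ', Module.End.mul_apply, hhf', ih, map_smul, ← sub_smul]
      congr 1
      push_cast
      ring
  have hup : ∀ i : ℕ, e ((f ^ (i + 1)) v) = (((i : K) + 1) * ((D : K) - i)) • (f ^ i) v := by
    intro i
    induction i with
    | zero =>
      rw [zero_add, pow_one, hef', hev, map_zero, zero_add, hhv]
      simp
    | succ i ih =>
      rw [pow_succ' f (i + 1), Module.End.mul_apply, hef', ih, map_smul, hwt,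
        ← Module.End.mul_apply f, ← pow_succ', ← add_smul]
      congr 1
      push_cast
      ring
  have hne : ∀ i : ℕ, i ≤ D → (f ^ i) v ≠ 0 := by
    intro i
    induction i with
    | zero => intro _; simpa using hu
    | succ i ih =>
      intro hi h0
      have h1 := hup i
      rw [h0, map_zero] at h1
      rcases smul_eq_zero.1 h1.symm with h2 | h2
      · rcases mul_eq_zero.1 h2 with h3 | h3
        · have : ((i + 1 : ℕ) : K) = 0 := by push_cast; exact h3
          rw [Nat.cast_eq_zero] at this
          omega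
        · have : (D : K) = (i : ℕ) := sub_eq_zero.1 h3
          rw [Nat.cast_inj] at this
          omega
      · exact ih (by omega) h2
  -- a basis
  have hli : LinearIndependent K (fun i : Fin (D + 1) => (f ^ (i : ℕ)) v) := by
    refine Module.End.eigenvectors_linearIndependent' h (fun i : Fin (D + 1) => (D : K) - 2 * (i : ℕ))
      ?_ _ ?_
    · intro i j hij
      have h1 : (D : K) - 2 * (i : ℕ) = (D : K) - 2 * (j : ℕ) := hij
      have h2 : ((i : ℕ) : K) = ((j : ℕ) : K) := by
        have h3 : (2 : K) * (((i : ℕ) : K) - ((j : ℕ) : K)) = 0 := by linear_combination -h1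
        exact sub_eq_zero.1 ((mul_eq_zero.1 h3).resolve_left two_ne_zero)
      exact Fin.ext (Nat.cast_injective h2)
    · intro i
      exact ⟨Module.End.mem_eigenspace_iff.2 (hwt i), hne i (by omega)⟩
  let b : Basis (Fin (D + 1)) K T :=
    basisOfLinearIndependentOfCardEqFinrank hli (by rw [Fintype.card_fin, hdim])
  have hb : ∀ i : Fin (D + 1), b i = (f ^ (i : ℕ)) v := fun i => by
    simp [b]
  -- the next power vanishes
  have hfz : (f ^ (D + 1)) v = 0 := by
    by_contra h0
    have h1 : h ((f ^ (D + 1)) v) = (-(D : K) - 2) • (f ^ (D + 1)) v := by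
      rw [hwt]
      congr 1
      push_cast
      ring
    have h2 : ∀ i : Fin (D + 1), b.repr ((f ^ (D + 1)) v) i = 0 := by
      intro i
      have h3 : (b.coord i) ∘ₗ h = ((D : K) - 2 * (i : ℕ)) • b.coord i := by
        refine b.ext fun j => ?_
        rw [LinearMap.comp_apply, LinearMap.smul_apply, hb j, hwt, ← hb j, map_smul,
          Basis.coord_apply, b.repr_self, Finsupp.single_apply, smul_eq_mul, smul_eq_mul]
        split_ifs with h4
        · rw [h4]
        · rw [mul_zero, mul_zero]
      have h4 := LinearMap.congr_fun h3 ((f ^ (D + 1)) v)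
      rw [LinearMap.comp_apply, h1, map_smul, LinearMap.smul_apply, Basis.coord_apply,
        smul_eq_mul, smul_eq_mul, ← sub_eq_zero, ← sub_mul] at h4
      refine (mul_eq_zero.1 h4).resolve_left ?_
      intro h5
      have h6 : (2 : K) * ((D + 1 - (i : ℕ) : ℕ) : K) = 0 := by
        have h7 : (i : ℕ) ≤ D + 1 := by omega
        rw [Nat.cast_sub h7]
        push_cast
        linear_combination -h5
      have h8 := (mul_eq_zero.1 h6).resolve_left two_ne_zero
      rw [Nat.cast_eq_zero] at h8
      omega
    apply h0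
    apply b.repr.injective
    ext i
    rw [h2, map_zero, Finsupp.zero_apply]
  -- the vectors
  obtain ⟨w, hw⟩ : ∃ w : ℕ → T, w = fun i => (e ^ i) ((f ^ D) v) := ⟨_, rfl⟩
  have hcw : ∀ i : ℕ, i ≤ D → ∃ c : K, c ≠ 0 ∧ w i = c • (f ^ (D - i)) v := by
    intro i
    induction i with
    | zero => intro _; exact ⟨1, one_ne_zero, by rw [hw]; simp⟩
    | succ i ih =>
      intro hi
      obtain ⟨c, hc, h1⟩ := ih (by omega)
      obtain ⟨m, hm⟩ : ∃ m, D - i = m + 1 := ⟨D - i - 1, by omega⟩
      have h2 : w (i + 1) = e (w i) := by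
        rw [hw]
        show (e ^ (i + 1)) _ = e ((e ^ i) _)
        rw [pow_succ', Module.End.mul_apply]
      refine ⟨c * (((m : K) + 1) * ((D : K) - m)), ?_, ?_⟩
      · refine mul_ne_zero hc (mul_ne_zero ?_ ?_)
        · have : ((m + 1 : ℕ) : K) ≠ 0 := Nat.cast_ne_zero.2 (by omega)
          push_cast at this
          exact this
        · rw [sub_ne_zero]
          intro h3
          rw [Nat.cast_inj] at h3
          omega
      · rw [h2, h1, map_smul, hm, hup, smul_smul, show D - (i + 1) = m by omega]
  have hwz : w (D + 1) = 0 := by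
    rw [hw]
    show (e ^ (D + 1)) _ = 0
    rw [hD1, LinearMap.zero_apply]
  have hwsucc : ∀ i, e (w i) = w (i + 1) := by
    intro i
    rw [hw]
    show e ((e ^ i) _) = (e ^ (i + 1)) _
    rw [pow_succ', Module.End.mul_apply]
  have hhw : ∀ i : ℕ, h (w i) = (2 * (i : K) - D) • w i := by
    intro i
    induction i with
    | zero =>
      have h0 : w 0 = (f ^ D) v := by rw [hw]; simp
      rw [h0, hwt]
      congr 1
      push_cast
      ring
    | succ i ih =>
      rw [← hwsucc, hhe', ih, map_smul, ← add_smul]
      congr 1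
      push_cast
      ring
  have hfw0 : f (w 0) = 0 := by
    have h0 : w 0 = (f ^ D) v := by rw [hw]; simp
    rw [h0, ← Module.End.mul_apply, ← pow_succ', hfz]
  have hfw : ∀ i : ℕ, f (w (i + 1)) = (((i : K) + 1) * ((D : K) - i)) • w i := by
    intro i
    induction i with
    | zero =>
      have h1 := hef' (w 0)
      rw [hfw0, map_zero, hhw, hwsucc, zero_add] at h1
      have h2 : f (w 1) = -((2 * ((0 : ℕ) : K) - D) • w 0) := by
        rw [eq_neg_iff_add_eq_zero]
        exact h1.symm
      rw [zero_add, h2, ← neg_smul]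
      congr 1
      push_cast
      ring
    | succ i ih =>
      have h1 := hef' (w (i + 1))
      rw [ih, map_smul, hwsucc, hwsucc, hhw] at h1
      have h2 : f (w (i + 1 + 1)) = (((i : K) + 1) * ((D : K) - i)) • w (i + 1) -
          (2 * ((i + 1 : ℕ) : K) - D) • w (i + 1) := by
        rw [h1]; abel
      rw [h2, ← sub_smul]
      congr 1
      push_cast
      ring
  refine ⟨w, ⟨hwsucc, hwz, hhw, hfw0, hfw, ?_, ?_⟩⟩
  · -- they span
    have hspan : ∀ i : ℕ, i ≤ D → (f ^ i) v ∈ Submodule.span K (w '' (Set.Iic D)) := by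
      intro i hi
      obtain ⟨c, hc, h1⟩ := hcw (D - i) (by omega)
      have h2 : (f ^ i) v = c⁻¹ • w (D - i) := by
        rw [h1, smul_smul, inv_mul_cancel₀ hc, one_smul, show D - (D - i) = i by omega]
      rw [h2]
      exact Submodule.smul_mem _ _ (Submodule.subset_span ⟨D - i, by simp, rfl⟩)
    have htop : ∀ x : T, x ∈ Submodule.span K (w '' (Set.Iic D)) := by
      intro x
      rw [← b.sum_repr x]
      refine Submodule.sum_mem _ fun i _ => Submodule.smul_mem _ _ ?_
      rw [hb]
      exact hspan i (by omega)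
    intro x
    have h1 := htop x
    refine Submodule.span_induction (p := fun x _ => ∃ c : ℕ → K, x = ∑ i ∈ range (D + 1), c i • w i)
      ?_ ?_ ?_ ?_ h1
    · rintro _ ⟨i, hi, rfl⟩
      refine ⟨fun j => if j = i then 1 else 0, ?_⟩
      rw [Finset.sum_eq_single i]
      · show w i = (if i = i then (1 : K) else 0) • w i
        rw [if_pos rfl, one_smul]
      · intro j _ hj
        show (if j = i then (1 : K) else 0) • w j = 0
        rw [if_neg hj, zero_smul]
      · intro h2
        exact absurd (mem_range.2 (Nat.lt_succ_of_le hi)) h2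
    · exact ⟨0, by simp⟩
    · rintro x y _ _ ⟨c, hc⟩ ⟨d, hd⟩
      refine ⟨c + d, ?_⟩
      rw [hc, hd, ← Finset.sum_add_distrib]
      exact Finset.sum_congr rfl fun i _ => by rw [Pi.add_apply, add_smul]
    · rintro a x _ ⟨c, hc⟩
      refine ⟨a • c, ?_⟩
      rw [hc, Finset.smul_sum]
      exact Finset.sum_congr rfl fun i _ => by rw [Pi.smul_apply, smul_eq_mul, mul_smul]
  · -- they are independent
    intro c hc i hi
    have hli' : LinearIndependent K (fun i : Fin (D + 1) => w i) := by
      refine Module.End.eigenvectors_linearIndependent' h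
        (fun i : Fin (D + 1) => 2 * ((i : ℕ) : K) - D) ?_ _ ?_
      · intro i j hij
        have h1 : 2 * ((i : ℕ) : K) - D = 2 * ((j : ℕ) : K) - D := hij
        have h2 : ((i : ℕ) : K) = ((j : ℕ) : K) := by
          have h3 : (2 : K) * (((i : ℕ) : K) - ((j : ℕ) : K)) = 0 := by linear_combination h1
          exact sub_eq_zero.1 ((mul_eq_zero.1 h3).resolve_left two_ne_zero)
        exact Fin.ext (Nat.cast_injective h2)
      · intro i
        refine ⟨Module.End.mem_eigenspace_iff.2 (hhw i), ?_⟩
        obtain ⟨c, hc, h1⟩ := hcw i (by omega)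
        rw [h1]
        exact smul_ne_zero hc (hne _ (by omega))
    rw [Fintype.linearIndependent_iff] at hli'
    have h1 := hli' (fun i => c i) (by
      rw [← hc, Finset.sum_range])
    exact h1 ⟨i, by omega⟩

end triple

end Pool.Agent.X292.JB
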